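import Pool.Agent.H695R3.SF.N0
import Pool.Agent.H695R3.SF.N1
import Pool.Agent.H695R3.SF.N2
import Pool.Agent.H695R3.SF.N3
import Pool.Agent.H695R3.SF.A1
import Pool.Agent.H695R3.SF.A2
import Pool.Agent.H695R3.SF.P1a
import Pool.Agent.H695R3.SF.P1
import Pool.Agent.H695R3.SF.A
import Pool.Agent.H695R3.SF.B1
import Pool.Agent.H695R3.SF.B2a
import Pool.Agent.H695R3.SF.B2
import Pool.Agent.H695R3.SF.B3a
import Pool.Agent.H695R3.SF.B3b
import Pool.Agent.H695R3.SF.B3
import Pool.Agent.H695R3.SF.B4
import Pool.Agent.H695R3.SF.B5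
import Pool.Agent.H695R3.SF.B
import Pool.Agent.H695R3.SF.C1
import Pool.Agent.H695R3.SF.C2
import Pool.Agent.H695R3.SF.C3a
import Pool.Agent.H695R3.SF.C3b
import Pool.Agent.H695R3.SF.C3
import Pool.Agent.H695R3.SF.C4
import Pool.Agent.H695R3.SF.DFix
import Pool.Agent.H695R3.SF.MN
import Pool.Agent.H695R3.SF.E1Fix
import Pool.Agent.H695R3.SF.E2
import Pool.Agent.H695R3.SF.E4
import Pool.Agent.H695R3.SF.E
import Pool.Agent.H695R3.SF.CARD
import Pool.Agent.H695R3.SF.E3
import Pool.Agent.H695R3.SF.TOOL
import Pool.Agent.H695R3.SF.SE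
import Pool.Agent.H695R3.SF.SD
import Pool.Agent.H695R3.SF.SC
import Pool.Agent.H695R3.SF.SB
import Pool.Agent.H695R3.SF.SA
import Pool.Agent.H695R3.SF.T1
import Pool.Agent.H695R3.SF.T2
import Pool.Agent.H695R3.SF.T3
import Pool.Agent.H695R3.SF.T4
import Pool.Agent.H695R3.SF.T5
import Pool.Agent.H695R3.SF.T6
import Pool.Agent.H695R3.SF.S0
import Pool.Agent.H695R3.SF.SZ
import Pool.Agent.H695R3.SF.M5
import Pool.Agent.H695R3.SF.M6
import Pool.Agent.H695R3.SF.M7
import Pool.Agent.H695R3.SF.M8
import Pool.Agent.H695R3.SF.M9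
import Pool.Agent.H695R3.SF.M10
import Pool.Agent.H695R3.SF.MF
import Pool.Agent.H695R3.SF.HF
import Pool.Agent.Y570.SF.Hard
import Pool.Agent.Y570.SF.Mem

/-!
# Counting unlabelled subgraphs is #P-complete already for trees of radius four

`numSub` (`Pool/Agent/H695R3/SF/Defs2.lean`) is the function #SUBFORESTS of the problem: the number
of isomorphism classes of the spanning subgraphs of the tree given by a list of vertices and a list
of edges (`0` if the lists do not describe a tree). `numC C` (`Pool/Agent/Y570/SF/Defs.lean`) is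
the number of isomorphism classes of the spanning subgraphs of a graph of the class `C` (`0` if the
lists do not describe a graph or if the graph is not in `C`).

The theorem answers the question (#SUBFORESTS is #P-complete) and shows more: the number is
#P-hard to compute for every class of graphs which contains all trees of radius at most `4` (so
that their diameter is at most `8`), and it is in `FP^#P` for every class of graphs which is
recognised in polynomial time. In particular it is #P-complete for the trees of radius at most `h`,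
for every fixed `h ≥ 4`, and for all graphs.

Idea. The instances of the reduction for #SUBFORESTS (starting file `SubforestsComplete`) are the
trees `treeL a`; the root of such a tree has distance at most `4` from all vertices, and the
reduction asks for the numbers of subforests of these trees only. For the membership, Burnside's
lemma and `#·NP ⊆ FP^#P` work for all graphs; the test of the class is one more condition of the
relation.
-/

set_option autoImplicit false

namespace Pool.Agent.Results.MP_17af9c_lc.BoundedRadius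

open Pool.Agent.NPC Pool.Agent.NPC.Cnt Pool.Agent.H695R3.SF Pool.Agent.Y570.SF

/-- **Main theorem.** #SUBFORESTS is #P-complete; counting the unlabelled spanning subgraphs is
#P-hard on every class of graphs containing the trees of radius at most `4`, and in `FP^#P` on every
class recognised in polynomial time; so it is #P-complete for the trees of radius at most `h`, for
every `h ≥ 4`, and for all graphs. -/
theorem result :
    (SharpPHard (strFn numSub) ∧ InFPSharpP (strFn numSub)) ∧
    (∀ C : Inp → Prop, (∀ T, TreeI T → Rad 4 T → C T) → SharpPHard (strFn (numC C))) ∧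
    (∀ C : Inp → Prop, (∃ c : Inp → Bool, Poly c ∧ ∀ T, ValI T → (c T = true ↔ C T)) →
      InFPSharpP (strFn (numC C))) ∧
    (∀ h : ℕ, 4 ≤ h → SharpPHard (strFn (numC (fun T => (grI T).IsTree ∧ Rad h T))) ∧
      InFPSharpP (strFn (numC (fun T => (grI T).IsTree ∧ Rad h T)))) ∧
    (SharpPHard (strFn (numC (fun _ => True))) ∧ InFPSharpP (strFn (numC (fun _ => True)))) := by
  have hA : S_A := A (A1 N0 N1 N2 N3) A2 (P1 P1a)
  have hB : S_B := B (B4 B1 (B2 B2a) (B3 B3a B3b)) B5
  have hC : S_C4 := C4 C1 C2 (C3 C3a C3b)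
  have hE : S_E := E (E2 (E1 MN)) E4
  have hard : ∀ C : Inp → Prop, (∀ T, TreeI T → Rad 4 T → C T) →
      SharpPHard (strFn (numC C)) := fun C h =>
    hardC (SE hE E3 CARD TOOL) (SD D CARD TOOL) (SC hC CARD TOOL) (SB hB CARD TOOL)
      (SA hA CARD TOOL) C (S0C T1 T2 T3 T4 T5 T6 C h)
  have mem : ∀ C : Inp → Prop, (∃ c : Inp → Bool, Poly c ∧ ∀ T, ValI T → (c T = true ↔ C T)) →
      InFPSharpP (strFn (numC C)) := fun C h => by
    obtain ⟨c, hc, hcC⟩ := h
    exact memC M5 M6 M9 T6 C c hc hcC
  refine ⟨⟨HF (SE hE E3 CARD TOOL) (SD D CARD TOOL) (SC hC CARD TOOL) (SB hB CARD TOOL)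
    (SA hA CARD TOOL) (S0 CARD T1 T2 T3 T4 T5 T6) SZ, MF M5 M6 M7 M8 M9 (M10 M8) T6⟩,
    hard, mem, fun h hh => ⟨hard _ ?_, mem _ ?_⟩, hard _ fun _ _ _ => trivial,
    mem _ ⟨fun _ => true, NPC.Poly.const true, fun _ _ => by simp⟩⟩
  · rintro T hT ⟨r, hr⟩
    exact ⟨hT.2.2, r, fun v => (hr v).trans hh⟩
  · exact ⟨_, (tree_rad_test M8 h).1, (tree_rad_test M8 h).2⟩

end Pool.Agent.Results.MP_17af9c_lc.BoundedRadius
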